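import Mathlib

set_option autoImplicit false
open Set Filter Topology

namespace Pool.Agent.Helper627.PM

/-- If `cos (θ + α) > 0` along a preconnected set, then `θ` is larger where `sin (θ + α) > 0`
than where `sin (θ + α) < 0`. -/
theorem angle_lt {X : Type*} [TopologicalSpace X] (θ : X → ℝ) (hθ : Continuous θ) (α : ℝ)
    (S : Set X) (hS : IsPreconnected S) (hcos : ∀ s ∈ S, 0 < Real.cos (θ s + α))
    (p q : X) (hp : p ∈ S) (hq : q ∈ S) (hsp : Real.sin (θ p + α) < 0)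
    (hsq : 0 < Real.sin (θ q + α)) : θ p < θ q := by
  by_contra hcon
  push Not at hcon
  have himg : IsPreconnected (θ '' S) := hS.image θ hθ.continuousOn
  have hoc := himg.ordConnected
  have hcos' : ∀ v ∈ Icc (θ q + α) (θ p + α), 0 < Real.cos v := by
    intro v hv
    have hmem : v - α ∈ θ '' S := by
      apply hoc.out ⟨q, hq, rfl⟩ ⟨p, hp, rfl⟩
      exact ⟨by linarith [hv.1], by linarith [hv.2]⟩
    obtain ⟨s, hs, hsv⟩ := hmem
    have := hcos s hs
    rw [hsv, sub_add_cancel] at this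
    exact this
  have hmono : StrictMonoOn Real.sin (Icc (θ q + α) (θ p + α)) := by
    apply strictMonoOn_of_deriv_pos (convex_Icc _ _) Real.continuous_sin.continuousOn
    intro v hv
    rw [interior_Icc] at hv
    rw [Real.deriv_sin]
    exact hcos' v ⟨hv.1.le, hv.2.le⟩
  have hle : θ q + α ≤ θ p + α := by linarith
  have h1 : Real.sin (θ q + α) ≤ Real.sin (θ p + α) :=
    hmono.monotoneOn ⟨le_rfl, hle⟩ ⟨hle, le_rfl⟩ hle
  linarith

/-- Continuous angle function of a nowhere zero planar field on the plane. -/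
theorem exists_angle (φ ψ : ℝ × ℝ → ℝ) (hφ : Continuous φ) (hψ : Continuous ψ)
    (hne : ∀ p, ¬ (φ p = 0 ∧ ψ p = 0)) :
    ∃ θ : ℝ × ℝ → ℝ, Continuous θ ∧ ∀ p, ∃ r : ℝ, 0 < r ∧ ψ p = r * Real.cos (θ p) ∧
      φ p = r * Real.sin (θ p) := by
  let G : ℝ × ℝ → ℂ := fun p => (ψ p : ℂ) + (φ p : ℂ) * Complex.I
  have hG : Continuous G := by fun_prop
  have hG0 : ∀ p, G p ≠ 0 := by
    intro p hp
    apply hne p
    have hre := congrArg Complex.re hp
    have him := congrArg Complex.im hp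
    simp [G] at hre him
    exact ⟨him, hre⟩
  have hnorm : ∀ p, ‖G p / (‖G p‖ : ℂ)‖ = 1 := by
    intro p
    rw [norm_div, Complex.norm_real, norm_norm]
    exact div_self (norm_ne_zero_iff.2 (hG0 p))
  let U : C(ℝ × ℝ, Circle) :=
    ⟨fun p => ⟨G p / (‖G p‖ : ℂ), mem_sphere_zero_iff_norm.2 (hnorm p)⟩, by
      apply Continuous.subtype_mk
      apply Continuous.div hG
      · exact Complex.continuous_ofReal.comp hG.norm
      · intro p
        exact_mod_cast norm_ne_zero_iff.2 (hG0 p)⟩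
  obtain ⟨e0, he0⟩ : ∃ e0 : ℝ, Circle.exp e0 = U (0, 0) :=
    ⟨Complex.arg (U (0, 0)), Circle.exp_arg (U (0, 0))⟩
  obtain ⟨Θ, ⟨_, hΘ⟩, _⟩ :=
    Circle.isCoveringMap_exp.existsUnique_continuousMap_lifts U (0, 0) e0 he0
  refine ⟨Θ, Θ.continuous, ?_⟩
  intro p
  have h1 : Circle.exp (Θ p) = U p := congrFun hΘ p
  have h2 : Complex.exp ((Θ p : ℝ) * Complex.I) = G p / (‖G p‖ : ℂ) := by
    have h4 : ((Circle.exp (Θ p) : Circle) : ℂ) = ((U p : Circle) : ℂ) := congrArg _ h1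
    rw [Circle.coe_exp] at h4
    exact h4
  have hpos : 0 < ‖G p‖ := norm_pos_iff.2 (hG0 p)
  have h3 : G p = (‖G p‖ : ℂ) * Complex.exp ((Θ p : ℝ) * Complex.I) := by
    rw [h2, mul_div_cancel₀]
    exact_mod_cast hpos.ne'
  refine ⟨‖G p‖, hpos, ?_, ?_⟩
  · have := congrArg Complex.re h3
    rw [Complex.re_ofReal_mul, Complex.exp_ofReal_mul_I_re] at this
    rw [← this]; simp [G]
  · have := congrArg Complex.im h3
    rw [Complex.im_ofReal_mul, Complex.exp_ofReal_mul_I_im] at this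
    rw [← this]; simp [G]

/-- The two-dimensional Poincare-Miranda theorem. -/
theorem poincare_miranda (a b c d : ℝ) (hab : a ≤ b) (hcd : c ≤ d) (φ ψ : ℝ × ℝ → ℝ)
    (hφ : ContinuousOn φ (Icc a b ×ˢ Icc c d)) (hψ : ContinuousOn ψ (Icc a b ×ˢ Icc c d))
    (hL : ∀ y ∈ Icc c d, ψ (a, y) < 0) (hR : ∀ y ∈ Icc c d, 0 < ψ (b, y))
    (hB : ∀ x ∈ Icc a b, φ (x, c) < 0) (hT : ∀ x ∈ Icc a b, 0 < φ (x, d)) :
    ∃ x ∈ Icc a b, ∃ y ∈ Icc c d, φ (x, y) = 0 ∧ ψ (x, y) = 0 := by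
  by_contra hcon
  push Not at hcon
  -- clamp to the rectangle
  let π' : ℝ × ℝ → ℝ × ℝ := fun p => (projIcc a b hab p.1, projIcc c d hcd p.2)
  have hπ : Continuous π' := by
    apply Continuous.prodMk
    · exact continuous_subtype_val.comp ((continuous_projIcc (h := hab)).comp continuous_fst)
    · exact continuous_subtype_val.comp ((continuous_projIcc (h := hcd)).comp continuous_snd)
  have hπm : ∀ p, π' p ∈ Icc a b ×ˢ Icc c d := fun p =>
    ⟨(projIcc a b hab p.1).2, (projIcc c d hcd p.2).2⟩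
  have hπid : ∀ p ∈ Icc a b ×ˢ Icc c d, π' p = p := by
    rintro ⟨x, y⟩ ⟨hx, hy⟩
    show ((projIcc a b hab x : ℝ), (projIcc c d hcd y : ℝ)) = (x, y)
    rw [projIcc_of_mem hab hx, projIcc_of_mem hcd hy]
  have hφ' : Continuous (fun p => φ (π' p)) := by
    rw [← continuousOn_univ]
    exact hφ.comp hπ.continuousOn (fun p _ => hπm p)
  have hψ' : Continuous (fun p => ψ (π' p)) := by
    rw [← continuousOn_univ]
    exact hψ.comp hπ.continuousOn (fun p _ => hπm p)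
  obtain ⟨θ, hθ, hθr⟩ := exists_angle _ _ hφ' hψ' (by
    rintro p ⟨h1, h2⟩
    obtain ⟨hx, hy⟩ := hπm p
    exact hcon _ hx _ hy h1 h2)
  have hc : c ∈ Icc c d := ⟨le_rfl, hcd⟩
  have hd : d ∈ Icc c d := ⟨hcd, le_rfl⟩
  have ha : a ∈ Icc a b := ⟨le_rfl, hab⟩
  have hb : b ∈ Icc a b := ⟨hab, le_rfl⟩
  -- signs of cos and sin on the rectangle
  have hcospos : ∀ p ∈ Icc a b ×ˢ Icc c d, 0 < ψ p → 0 < Real.cos (θ p) := by
    intro p hp h
    obtain ⟨r, hr, h1, _⟩ := hθr p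
    rw [hπid p hp] at h1
    rw [h1] at h
    exact (mul_pos_iff_of_pos_left hr).1 h
  have hcosneg : ∀ p ∈ Icc a b ×ˢ Icc c d, ψ p < 0 → Real.cos (θ p) < 0 := by
    intro p hp h
    obtain ⟨r, hr, h1, _⟩ := hθr p
    rw [hπid p hp] at h1
    rw [h1] at h
    by_contra hc'
    push Not at hc'
    have := mul_nonneg hr.le hc'
    linarith
  have hsinpos : ∀ p ∈ Icc a b ×ˢ Icc c d, 0 < φ p → 0 < Real.sin (θ p) := by
    intro p hp h
    obtain ⟨r, hr, _, h1⟩ := hθr p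
    rw [hπid p hp] at h1
    rw [h1] at h
    exact (mul_pos_iff_of_pos_left hr).1 h
  have hsinneg : ∀ p ∈ Icc a b ×ˢ Icc c d, φ p < 0 → Real.sin (θ p) < 0 := by
    intro p hp h
    obtain ⟨r, hr, _, h1⟩ := hθr p
    rw [hπid p hp] at h1
    rw [h1] at h
    by_contra hc'
    push Not at hc'
    have := mul_nonneg hr.le hc'
    linarith
  -- right side
  have e1 : θ (b, c) < θ (b, d) := by
    apply angle_lt θ hθ 0 ((fun y => (b, y)) '' Icc c d)
      (isPreconnected_Icc.image _ (by fun_prop)) _ _ _ ⟨c, hc, rfl⟩ ⟨d, hd, rfl⟩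
    · rw [add_zero]; exact hsinneg _ ⟨hb, hc⟩ (hB b hb)
    · rw [add_zero]; exact hsinpos _ ⟨hb, hd⟩ (hT b hb)
    · rintro _ ⟨y, hy, rfl⟩
      rw [add_zero]; exact hcospos _ ⟨hb, hy⟩ (hR y hy)
  -- top side
  have e2 : θ (b, d) < θ (a, d) := by
    apply angle_lt θ hθ (-(Real.pi / 2)) ((fun x => (x, d)) '' Icc a b)
      (isPreconnected_Icc.image _ (by fun_prop)) _ _ _ ⟨b, hb, rfl⟩ ⟨a, ha, rfl⟩
    · rw [← sub_eq_add_neg, Real.sin_sub_pi_div_two]
      have := hcospos _ ⟨hb, hd⟩ (hR d hd)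
      linarith
    · rw [← sub_eq_add_neg, Real.sin_sub_pi_div_two]
      have := hcosneg _ ⟨ha, hd⟩ (hL d hd)
      linarith
    · rintro _ ⟨x, hx, rfl⟩
      rw [← sub_eq_add_neg, Real.cos_sub_pi_div_two]
      exact hsinpos _ ⟨hx, hd⟩ (hT x hx)
  -- left side
  have e3 : θ (a, d) < θ (a, c) := by
    apply angle_lt θ hθ (-Real.pi) ((fun y => (a, y)) '' Icc c d)
      (isPreconnected_Icc.image _ (by fun_prop)) _ _ _ ⟨d, hd, rfl⟩ ⟨c, hc, rfl⟩
    · rw [← sub_eq_add_neg, Real.sin_sub_pi]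
      have := hsinpos _ ⟨ha, hd⟩ (hT a ha)
      linarith
    · rw [← sub_eq_add_neg, Real.sin_sub_pi]
      have := hsinneg _ ⟨ha, hc⟩ (hB a ha)
      linarith
    · rintro _ ⟨y, hy, rfl⟩
      rw [← sub_eq_add_neg, Real.cos_sub_pi]
      have := hcosneg _ ⟨ha, hy⟩ (hL y hy)
      linarith
  -- bottom side
  have e4 : θ (a, c) < θ (b, c) := by
    apply angle_lt θ hθ (Real.pi / 2) ((fun x => (x, c)) '' Icc a b)
      (isPreconnected_Icc.image _ (by fun_prop)) _ _ _ ⟨a, ha, rfl⟩ ⟨b, hb, rfl⟩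
    · rw [Real.sin_add_pi_div_two]
      exact hcosneg _ ⟨ha, hc⟩ (hL c hc)
    · rw [Real.sin_add_pi_div_two]
      exact hcospos _ ⟨hb, hc⟩ (hR c hc)
    · rintro _ ⟨x, hx, rfl⟩
      rw [Real.cos_add_pi_div_two]
      have := hsinneg _ ⟨hx, hc⟩ (hB x hx)
      linarith
  linarith

end Pool.Agent.Helper627.PM
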