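import Mathlib
import Pool.Agent.Helper627.PM

set_option autoImplicit false
open Set Filter Topology

namespace Pool.Agent.Helper627.Sep

/-- core step: a totally disconnected set cannot separate the bottom of a rectangle from its top -/
theorem core (k0 k1 y1 y2 : ℝ) (hk : k0 < k1) (hy : y1 < y2) (O1 O2 : Set (ℝ × ℝ))
    (hO1 : IsOpen O1) (hO2 : IsOpen O2)
    (hdisj : ∀ p ∈ Icc k0 k1 ×ˢ Icc y1 y2, p ∈ O1 → p ∈ O2 → False)
    (hF : IsTotallyDisconnected ((Icc k0 k1 ×ˢ Icc y1 y2) \ (O1 ∪ O2)))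
    (hB : ∀ x ∈ Icc k0 k1, (x, y1) ∈ O1) (hT : ∀ x ∈ Icc k0 k1, (x, y2) ∈ O2) : False := by
  set R : Set (ℝ × ℝ) := Icc k0 k1 ×ˢ Icc y1 y2 with hR
  set F : Set (ℝ × ℝ) := R \ (O1 ∪ O2) with hFdef
  have hRc : IsCompact R := isCompact_Icc.prod isCompact_Icc
  have hFc : IsCompact F := hRc.diff (hO1.union hO2)
  have : CompactSpace F := isCompact_iff_compactSpace.1 hFc
  have : TotallyDisconnectedSpace F := totallyDisconnectedSpace_subtype_iff.2 hF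
  have hk0 : k0 ∈ Icc k0 k1 := ⟨le_rfl, hk.le⟩
  have hk1 : k1 ∈ Icc k0 k1 := ⟨hk.le, le_rfl⟩
  have hy1 : y1 ∈ Icc y1 y2 := ⟨le_rfl, hy.le⟩
  have hy2 : y2 ∈ Icc y1 y2 := ⟨hy.le, le_rfl⟩
  have hcf : Continuous (fun p : F => p.1.1) := continuous_fst.comp continuous_subtype_val
  obtain ⟨C, hC, hZC, hCU⟩ := exists_clopen_of_closed_subset_open
    (Z := {p : F | p.1.1 = k0}) (U := {p : F | p.1.1 ≠ k1})
    (isClosed_eq hcf continuous_const) (isOpen_ne_fun hcf continuous_const)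
    (by
      intro p hp hp1
      have h0 : p.1.1 = k0 := hp
      have h1 : p.1.1 = k1 := hp1
      linarith)
  set A : Set (ℝ × ℝ) := ({k0} : Set ℝ) ×ˢ Icc y1 y2 ∪ Subtype.val '' C with hA
  set B : Set (ℝ × ℝ) := ({k1} : Set ℝ) ×ˢ Icc y1 y2 ∪ Subtype.val '' Cᶜ with hBdef
  have hAc : IsClosed A := by
    apply IsClosed.union (isClosed_singleton.prod isClosed_Icc)
    exact (hC.isClosed.isCompact.image continuous_subtype_val).isClosed
  have hBc : IsClosed B := by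
    apply IsClosed.union (isClosed_singleton.prod isClosed_Icc)
    exact (hC.compl.isClosed.isCompact.image continuous_subtype_val).isClosed
  have hAB : ∀ p, p ∈ A → p ∈ B → False := by
    rintro p (⟨hp0, _⟩ | ⟨q, hq, rfl⟩) (⟨hp1, _⟩ | ⟨q', hq', h⟩)
    · have h0 : p.1 = k0 := hp0
      have h1 : p.1 = k1 := hp1
      linarith
    · apply hq'
      apply hZC
      show q'.1.1 = k0
      rw [h]; exact hp0
    · exact hCU hq hp1
    · have : q' = q := Subtype.ext h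
      rw [this] at hq'
      exact hq' hq
  have hAne : A.Nonempty := ⟨(k0, y1), Or.inl ⟨rfl, hy1⟩⟩
  have hBne : B.Nonempty := ⟨(k1, y1), Or.inl ⟨rfl, hy1⟩⟩
  let ψ : ℝ × ℝ → ℝ := fun p => Metric.infDist p A - Metric.infDist p B
  have hψ : Continuous ψ := (Metric.continuous_infDist_pt A).sub (Metric.continuous_infDist_pt B)
  have hψA : ∀ p ∈ A, ψ p < 0 := by
    intro p hp
    have h1 : Metric.infDist p A = 0 := Metric.infDist_zero_of_mem hp
    have h2 : 0 < Metric.infDist p B := (hBc.notMem_iff_infDist_pos hBne).1 (fun h => hAB p hp h)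
    show Metric.infDist p A - Metric.infDist p B < 0
    linarith
  have hψB : ∀ p ∈ B, 0 < ψ p := by
    intro p hp
    have h1 : Metric.infDist p B = 0 := Metric.infDist_zero_of_mem hp
    have h2 : 0 < Metric.infDist p A := (hAc.notMem_iff_infDist_pos hAne).1 (fun h => hAB p h hp)
    show 0 < Metric.infDist p A - Metric.infDist p B
    linarith
  have hE1c : IsClosed (R \ O1) := (hRc.diff hO1).isClosed
  have hE2c : IsClosed (R \ O2) := (hRc.diff hO2).isClosed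
  have hE1ne : (R \ O1).Nonempty :=
    ⟨(k0, y2), ⟨hk0, hy2⟩, fun h => hdisj _ ⟨hk0, hy2⟩ h (hT k0 hk0)⟩
  have hE2ne : (R \ O2).Nonempty :=
    ⟨(k0, y1), ⟨hk0, hy1⟩, fun h => hdisj _ ⟨hk0, hy1⟩ (hB k0 hk0) h⟩
  let φ : ℝ × ℝ → ℝ := fun p => Metric.infDist p (R \ O2) - Metric.infDist p (R \ O1)
  have hφ : Continuous φ :=
    (Metric.continuous_infDist_pt (R \ O2)).sub (Metric.continuous_infDist_pt (R \ O1))
  have hφ1 : ∀ p ∈ R, p ∈ O1 → φ p < 0 := by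
    intro p hp hp1
    have h1 : Metric.infDist p (R \ O2) = 0 :=
      Metric.infDist_zero_of_mem ⟨hp, fun h => hdisj p hp hp1 h⟩
    have h2 : 0 < Metric.infDist p (R \ O1) :=
      (hE1c.notMem_iff_infDist_pos hE1ne).1 (fun h => h.2 hp1)
    show Metric.infDist p (R \ O2) - Metric.infDist p (R \ O1) < 0
    linarith
  have hφ2 : ∀ p ∈ R, p ∈ O2 → 0 < φ p := by
    intro p hp hp1
    have h1 : Metric.infDist p (R \ O1) = 0 :=
      Metric.infDist_zero_of_mem ⟨hp, fun h => hdisj p hp h hp1⟩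
    have h2 : 0 < Metric.infDist p (R \ O2) :=
      (hE2c.notMem_iff_infDist_pos hE2ne).1 (fun h => h.2 hp1)
    show 0 < Metric.infDist p (R \ O2) - Metric.infDist p (R \ O1)
    linarith
  obtain ⟨x, hx, y, hy', h0, h0'⟩ := PM.poincare_miranda k0 k1 y1 y2 hk.le hy.le φ ψ
    hφ.continuousOn hψ.continuousOn
    (fun y hy => hψA _ (Or.inl ⟨rfl, hy⟩)) (fun y hy => hψB _ (Or.inl ⟨rfl, hy⟩))
    (fun x hx => hφ1 _ ⟨hx, hy1⟩ (hB x hx)) (fun x hx => hφ2 _ ⟨hx, hy2⟩ (hT x hx))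
  have hpR : ((x, y) : ℝ × ℝ) ∈ R := ⟨hx, hy'⟩
  have hpF : ((x, y) : ℝ × ℝ) ∈ F := by
    refine ⟨hpR, ?_⟩
    rintro (h | h)
    · have := hφ1 _ hpR h; linarith
    · have := hφ2 _ hpR h; linarith
  by_cases hpC : (⟨(x, y), hpF⟩ : F) ∈ C
  · have := hψA (x, y) (Or.inr ⟨_, hpC, rfl⟩); linarith
  · have := hψB (x, y) (Or.inr ⟨_, hpC, rfl⟩); linarith

/-- A totally disconnected closed set does not separate a rectangle. -/
theorem no_sep (a b c d : ℝ) (hab : a < b) (hcd : c < d) (O1 O2 : Set (ℝ × ℝ))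
    (hO1 : IsOpen O1) (hO2 : IsOpen O2)
    (hdisj : ∀ p ∈ Icc a b ×ˢ Icc c d, p ∈ O1 → p ∈ O2 → False)
    (hF : IsTotallyDisconnected ((Icc a b ×ˢ Icc c d) \ (O1 ∪ O2)))
    (h1 : ((Icc a b ×ˢ Icc c d) ∩ O1).Nonempty) (h2 : ((Icc a b ×ˢ Icc c d) ∩ O2).Nonempty) :
    False := by
  -- a vertical segment meeting both sets
  have hopen : ∀ O : Set (ℝ × ℝ), IsOpen O → IsOpen {x : ℝ | ∃ y ∈ Icc c d, (x, y) ∈ O} := by
    intro O hO
    have : {x : ℝ | ∃ y ∈ Icc c d, (x, y) ∈ O} = ⋃ y ∈ Icc c d, {x : ℝ | (x, y) ∈ O} := by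
      ext x; simp
    rw [this]
    apply isOpen_biUnion
    intro y _
    exact hO.preimage (by fun_prop)
  have hcover : Icc a b ⊆ {x : ℝ | ∃ y ∈ Icc c d, (x, y) ∈ O1} ∪
      {x : ℝ | ∃ y ∈ Icc c d, (x, y) ∈ O2} := by
    intro x hx
    by_contra hcon
    have hn : ∀ y ∈ Icc c d, (x, y) ∉ O1 ∧ (x, y) ∉ O2 := by
      intro y hy
      exact ⟨fun h => hcon (Or.inl ⟨y, hy, h⟩), fun h => hcon (Or.inr ⟨y, hy, h⟩)⟩
    have hpc : IsPreconnected ((fun y => (x, y)) '' Icc c d) :=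
      isPreconnected_Icc.image _ (by fun_prop)
    have hsub : (fun y => (x, y)) '' Icc c d ⊆ (Icc a b ×ˢ Icc c d) \ (O1 ∪ O2) := by
      rintro _ ⟨y, hy, rfl⟩
      exact ⟨⟨hx, hy⟩, fun h => h.elim (hn y hy).1 (hn y hy).2⟩
    have hss := hF _ hsub hpc
    have := hss ⟨c, ⟨le_rfl, hcd.le⟩, rfl⟩ ⟨d, ⟨hcd.le, le_rfl⟩, rfl⟩
    have h3 : c = d := congrArg Prod.snd this
    linarith
  obtain ⟨⟨x1, y1⟩, ⟨hx1, hy1⟩, hp1⟩ := h1
  obtain ⟨⟨x2, y2⟩, ⟨hx2, hy2⟩, hp2⟩ := h2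
  obtain ⟨x0, hx0, ⟨u1, hu1, hm1⟩, ⟨u2, hu2, hm2⟩⟩ := isPreconnected_Icc _ _ (hopen O1 hO1)
    (hopen O2 hO2) hcover ⟨x1, hx1, y1, hy1, hp1⟩ ⟨x2, hx2, y2, hy2, hp2⟩
  -- a small horizontal interval around x0
  have hev : ∀ᶠ x in 𝓝 x0, (x, u1) ∈ O1 ∧ (x, u2) ∈ O2 := by
    have c1 : Continuous (fun x : ℝ => (x, u1)) := by fun_prop
    have c2 : Continuous (fun x : ℝ => (x, u2)) := by fun_prop
    exact (c1.continuousAt.eventually (hO1.mem_nhds hm1)).and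
      (c2.continuousAt.eventually (hO2.mem_nhds hm2))
  obtain ⟨ε, hε, hball⟩ := Metric.eventually_nhds_iff.1 hev
  set k0 := max a (x0 - ε / 2) with hk0
  set k1 := min b (x0 + ε / 2) with hk1
  have hk0x : k0 ≤ x0 := max_le hx0.1 (by linarith)
  have hk1x : x0 ≤ k1 := le_min hx0.2 (by linarith)
  have hk : k0 < k1 := by
    apply max_lt
    · apply lt_min hab
      linarith [hx0.1]
    · apply lt_min
      · linarith [hx0.2]
      · linarith
  have hka : a ≤ k0 := le_max_left _ _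
  have hkb : k1 ≤ b := min_le_left _ _
  have hin : ∀ x ∈ Icc k0 k1, (x, u1) ∈ O1 ∧ (x, u2) ∈ O2 := by
    intro x hx
    apply hball
    rw [Real.dist_eq, abs_lt]
    have e1 : x0 - ε / 2 ≤ k0 := le_max_right _ _
    have e2 : k1 ≤ x0 + ε / 2 := min_le_right _ _
    constructor <;> linarith [hx.1, hx.2]
  have hne : u1 ≠ u2 := by
    intro h
    rw [h] at hm1
    exact hdisj (x0, u2) ⟨hx0, hu2⟩ hm1 hm2
  have hsubx : Icc k0 k1 ⊆ Icc a b := Icc_subset_Icc hka hkb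
  rcases lt_or_gt_of_ne hne with hlt | hlt
  · have hsuby : Icc u1 u2 ⊆ Icc c d := Icc_subset_Icc hu1.1 hu2.2
    refine core k0 k1 u1 u2 hk hlt O1 O2 hO1 hO2 (fun p hp => hdisj p ⟨hsubx hp.1, hsuby hp.2⟩)
      ?_ (fun x hx => (hin x hx).1) (fun x hx => (hin x hx).2)
    intro t ht htc
    exact hF t (fun p hp => ⟨⟨hsubx (ht hp).1.1, hsuby (ht hp).1.2⟩, (ht hp).2⟩) htc
  · have hsuby : Icc u2 u1 ⊆ Icc c d := Icc_subset_Icc hu2.1 hu1.2
    refine core k0 k1 u2 u1 hk hlt O2 O1 hO2 hO1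
      (fun p hp h2 h1 => hdisj p ⟨hsubx hp.1, hsuby hp.2⟩ h1 h2)
      ?_ (fun x hx => (hin x hx).2) (fun x hx => (hin x hx).1)
    intro t ht htc
    refine hF t (fun p hp => ⟨⟨hsubx (ht hp).1.1, hsuby (ht hp).1.2⟩, ?_⟩) htc
    rw [union_comm]
    exact (ht hp).2

end Pool.Agent.Helper627.Sep
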